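import Pool.Agent.Y125.RP.Loc
import Pool.Agent.H426R3.SQ.N5

set_option autoImplicit false
set_option linter.all false

/-! # Roots of a polynomial modulo many primes above `y` -/

namespace Pool.Agent.Y125.RP

open Polynomial Finset

open scoped Classical

open Pool.Agent.H426R3.SQ.N5 (mertens')

/-- the absolute value of the polynomial at `t` -/
def FF (h : ℤ[X]) (t : ℕ) : ℕ := (h.eval (t : ℤ)).natAbs

theorem sum_list_comm {ι : Type*} (J : Finset ι) (T : List ℕ) (f : ι → ℕ → ℕ) :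
    ∑ t ∈ J, (T.map (fun s => f t s)).sum = (T.map (fun s => ∑ t ∈ J, f t s)).sum := by
  induction T with
  | nil => simp
  | cons s T ih => simp only [List.map_cons, List.sum_cons, Finset.sum_add_distrib, ih]

theorem per_prime {p : ℕ} (hp : p.Prime) (h : ℤ[X]) (hh : h ≠ 0)
    (V X : ℕ) (hX1 : 1 ≤ X)
    (hn0 : ∀ t ∈ Ioc V (2 * V), FF h t ≠ 0) (hX : ∀ t ∈ Ioc V (2 * V), FF h t ≤ X) :
    ∑ t ∈ Ioc V (2 * V), ((FF h t).factorization p : ℝ) * Real.log p ≤
      V * ((h.leadingCoeff.natAbs.factorization p : ℝ) * Real.log p) +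
        h.natDegree * (V * (Real.log p / (p - 1)) + Real.log X) := by
  have hp1 : (1 : ℝ) < p := by exact_mod_cast hp.one_lt
  have hlp : 0 < Real.log p := Real.log_pos hp1
  obtain ⟨T, hT1, hT2, hT3⟩ := loc_nat hp h hh (Ioc V (2 * V))
    (fun t ht => Int.natAbs_ne_zero.1 (hn0 t ht))
  set K := Nat.log p X with hK
  set v := h.leadingCoeff.natAbs.factorization p with hv
  have hle : ∀ t ∈ Ioc V (2 * V), (FF h t).factorization p ≤ v +
      (T.map (fun s : ℕ => ((t : ℤ) - s).natAbs.factorization p)).sum +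
        (if t ∈ T then K else 0) := by
    intro t ht
    by_cases htT : t ∈ T
    · rw [if_pos htT]
      have h1 : (FF h t).factorization p ≤ K := by
        rw [hK]
        apply Nat.le_log_of_pow_le hp.one_lt
        exact (Nat.le_of_dvd (Nat.pos_of_ne_zero (hn0 t ht)) (Nat.ordProj_dvd _ _)).trans (hX t ht)
      omega
    · rw [if_neg htT, add_zero]
      exact hT3 t ht htT
  have hsum : ∑ t ∈ Ioc V (2 * V), (FF h t).factorization p ≤ V * v +
      (T.map (fun s : ℕ => ∑ t ∈ Ioc V (2 * V), ((t : ℤ) - s).natAbs.factorization p)).sum +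
        h.natDegree * K := by
    refine (Finset.sum_le_sum hle).trans ?_
    rw [Finset.sum_add_distrib, Finset.sum_add_distrib, sum_list_comm]
    have h1 : ∑ t ∈ Ioc V (2 * V), v = V * v := by
      rw [Finset.sum_const, Nat.card_Ioc, smul_eq_mul]
      congr 1
      omega
    have h2 : ∑ t ∈ Ioc V (2 * V), (if t ∈ T then K else 0) ≤ h.natDegree * K := by
      rw [← Finset.sum_filter, Finset.sum_const, smul_eq_mul]
      refine Nat.mul_le_mul_right _ ?_
      calc ((Ioc V (2 * V)).filter (fun t => t ∈ T)).card ≤ T.toFinset.card := by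
            refine Finset.card_le_card fun t ht => ?_
            rw [Finset.mem_filter] at ht
            exact List.mem_toFinset.2 ht.2
        _ ≤ T.length := List.toFinset_card_le T
        _ ≤ _ := hT1
    rw [h1]
    exact Nat.add_le_add_left h2 _
  have hreal : (((T.map (fun s : ℕ => ∑ t ∈ Ioc V (2 * V),
      ((t : ℤ) - s).natAbs.factorization p)).sum : ℕ) : ℝ) ≤ h.natDegree * (V * (1 / ((p : ℝ) - 1))) := by
    have h1 : ∀ T : List ℕ, (∀ s ∈ T, s ∈ Ioc V (2 * V)) → (((T.map (fun s : ℕ =>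
        ∑ t ∈ Ioc V (2 * V), ((t : ℤ) - s).natAbs.factorization p)).sum : ℕ) : ℝ) ≤
          T.length * (V * (1 / ((p : ℝ) - 1))) := by
      intro T
      induction T with
      | nil => intro _; simp
      | cons s T ih =>
        intro hs
        have h2 := ih fun s hs' => hs s (List.mem_cons_of_mem _ hs')
        have h3 := diff_sum hp V s (hs s List.mem_cons_self)
        have h4 : ((p : ℝ) - 1) * ((∑ t ∈ Ioc V (2 * V),
            ((t : ℤ) - s).natAbs.factorization p : ℕ) : ℝ) ≤ V := by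
          have h5 : ((p - 1 : ℕ) : ℝ) = (p : ℝ) - 1 := by
            rw [Nat.cast_sub hp.one_lt.le, Nat.cast_one]
          rw [← h5]
          exact_mod_cast h3
        have h6 : ((∑ t ∈ Ioc V (2 * V),
            ((t : ℤ) - s).natAbs.factorization p : ℕ) : ℝ) ≤ V * (1 / ((p : ℝ) - 1)) := by
          rw [mul_one_div, le_div_iff₀ (by linarith)]
          linarith
        rw [List.map_cons, List.sum_cons, List.length_cons]
        push_cast at h2 h6 ⊢
        linarith
    refine (h1 T hT2).trans ?_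
    have h2 : (T.length : ℝ) ≤ h.natDegree := by exact_mod_cast hT1
    have h3 : 0 ≤ (V : ℝ) * (1 / ((p : ℝ) - 1)) := by
      have : 0 < (p : ℝ) - 1 := by linarith
      positivity
    exact mul_le_mul_of_nonneg_right h2 h3
  have h4 : (K : ℝ) * Real.log p ≤ Real.log X := by
    have h5 : p ^ K ≤ X := Nat.pow_log_le_self p (by omega)
    have h6 : ((p : ℝ)) ^ K ≤ X := by exact_mod_cast h5
    have h7 := Real.log_le_log (by positivity) h6
    rwa [Real.log_pow] at h7
  have hsumR : ∑ t ∈ Ioc V (2 * V), ((FF h t).factorization p : ℝ) ≤ V * v +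
      h.natDegree * (V * (1 / ((p : ℝ) - 1))) + h.natDegree * K := by
    have h5 : ((∑ t ∈ Ioc V (2 * V), (FF h t).factorization p : ℕ) : ℝ) ≤ ((V * v +
      (T.map (fun s : ℕ => ∑ t ∈ Ioc V (2 * V), ((t : ℤ) - s).natAbs.factorization p)).sum +
        h.natDegree * K : ℕ) : ℝ) := by exact_mod_cast hsum
    rw [Nat.cast_add, Nat.cast_add, Nat.cast_mul, Nat.cast_mul, Nat.cast_sum] at h5
    linarith
  rw [← Finset.sum_mul]
  calc (∑ t ∈ Ioc V (2 * V), ((FF h t).factorization p : ℝ)) * Real.log p ≤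
        (V * v + h.natDegree * (V * (1 / ((p : ℝ) - 1))) + h.natDegree * K) * Real.log p :=
        mul_le_mul_of_nonneg_right hsumR hlp.le
    _ = V * (v * Real.log p) + h.natDegree * (V * (Real.log p / (p - 1)) + K * Real.log p) := by
        ring
    _ ≤ _ := by gcongr

/-- the primes dividing some value -/
noncomputable def PSF (h : ℤ[X]) (V X : ℕ) : Finset ℕ :=
  (Icc 1 X).filter (fun p => p.Prime ∧ ∃ t ∈ Ioc V (2 * V), p ∣ FF h t)

theorem mem_PSF {h : ℤ[X]} {V X p : ℕ} : p ∈ PSF h V X ↔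
    (1 ≤ p ∧ p ≤ X) ∧ p.Prime ∧ ∃ t ∈ Ioc V (2 * V), p ∣ FF h t := by
  unfold PSF
  simp only [Finset.mem_filter, Finset.mem_Icc]

theorem main_ineqF (h : ℤ[X]) (hd : 1 ≤ h.natDegree) (V X A : ℕ) (hV : 1 ≤ V) (hX1 : 1 ≤ X)
    (hA : |h.leadingCoeff| ≤ (A : ℤ))
    (hlow : ∀ t ∈ Ioc V (2 * V), (t : ℝ) ^ h.natDegree / 2 ≤ (FF h t : ℝ))
    (hX : ∀ t ∈ Ioc V (2 * V), FF h t ≤ X) :
    V * Real.log V - V * Real.log (2 * A) ≤
      ∑ p ∈ PSF h V X, (V * (Real.log p / (p - 1)) + Real.log X) := by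
  have hh : h ≠ 0 := by
    rintro rfl
    simp at hd
  have hlc : h.leadingCoeff ≠ 0 := leadingCoeff_ne_zero.2 hh
  have hlc' : h.leadingCoeff.natAbs ≠ 0 := Int.natAbs_ne_zero.2 hlc
  have hA' : h.leadingCoeff.natAbs ≤ A := by
    have : ((h.leadingCoeff.natAbs : ℕ) : ℤ) ≤ A := by rw [Int.natCast_natAbs]; exact hA
    exact_mod_cast this
  have hA1 : 1 ≤ A := (Nat.one_le_iff_ne_zero.2 hlc').trans hA'
  set d := h.natDegree with hdef
  have hd0 : (0 : ℝ) < d := by exact_mod_cast hd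
  have hd1 : (1 : ℝ) ≤ d := by exact_mod_cast hd
  have hVr : (0 : ℝ) < V := by exact_mod_cast hV
  have hn0 : ∀ t ∈ Ioc V (2 * V), FF h t ≠ 0 := by
    intro t ht h0
    have h1 := hlow t ht
    rw [h0] at h1
    have h2 : (0 : ℝ) < t := by
      have := (Finset.mem_Ioc.1 ht).1
      exact_mod_cast (by omega : 0 < t)
    have h3 : 0 < (t : ℝ) ^ d / 2 := by positivity
    push_cast at h1
    linarith
  have h2 : (V : ℝ) * (d * Real.log V - Real.log 2) ≤
      ∑ t ∈ Ioc V (2 * V), Real.log (FF h t) := by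
    have h3 : ∀ t ∈ Ioc V (2 * V), (d * Real.log V - Real.log 2) ≤ Real.log (FF h t) := by
      intro t ht
      have h4 := hlow t ht
      have h5 : (V : ℝ) ≤ t := by exact_mod_cast (Finset.mem_Ioc.1 ht).1.le
      have h6 : (V : ℝ) ^ d / 2 ≤ (FF h t : ℝ) := by
        refine le_trans ?_ h4
        gcongr
      have h7 := Real.log_le_log (by positivity) h6
      rw [Real.log_div (by positivity) (by norm_num), Real.log_pow] at h7
      exact h7
    have h4 := Finset.card_nsmul_le_sum _ _ _ h3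
    rw [Nat.card_Ioc, nsmul_eq_mul] at h4
    have h5 : 2 * V - V = V := by omega
    rwa [h5] at h4
  have h3 : ∀ t ∈ Ioc V (2 * V), Real.log (FF h t) =
      ∑ p ∈ PSF h V X, ((FF h t).factorization p : ℝ) * Real.log p := by
    intro t ht
    rw [Real.log_nat_eq_sum_factorization, Finsupp.sum]
    refine Finset.sum_subset ?_ ?_
    · intro p hp
      rw [Nat.support_factorization, Nat.mem_primeFactors] at hp
      obtain ⟨h4, h5, h6⟩ := hp
      refine mem_PSF.2 ⟨⟨h4.one_lt.le, (Nat.le_of_dvd (Nat.pos_of_ne_zero h6) h5).trans (hX t ht)⟩,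
        h4, t, ht, h5⟩
    · intro p _ hp
      rw [Finsupp.notMem_support_iff] at hp
      rw [hp]
      simp
  have hla : ∑ p ∈ PSF h V X, ((h.leadingCoeff.natAbs.factorization p : ℝ) * Real.log p) ≤
      Real.log A := by
    have h4 : Real.log (h.leadingCoeff.natAbs : ℝ) ≤ Real.log A :=
      Real.log_le_log (by exact_mod_cast Nat.pos_of_ne_zero hlc') (by exact_mod_cast hA')
    refine le_trans ?_ h4
    rw [Real.log_nat_eq_sum_factorization, Finsupp.sum]
    have h5 : ∑ p ∈ PSF h V X, ((h.leadingCoeff.natAbs.factorization p : ℝ) * Real.log p) =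
        ∑ p ∈ (PSF h V X).filter (fun p => p ∈ h.leadingCoeff.natAbs.factorization.support),
          ((h.leadingCoeff.natAbs.factorization p : ℝ) * Real.log p) := by
      symm
      refine Finset.sum_subset (Finset.filter_subset _ _) ?_
      intro p hp hp'
      rw [Finset.mem_filter, not_and] at hp'
      have := hp' hp
      rw [Finsupp.notMem_support_iff] at this
      rw [this]
      simp
    rw [h5]
    refine Finset.sum_le_sum_of_subset_of_nonneg ?_ ?_
    · intro p hp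
      exact (Finset.mem_filter.1 hp).2
    · intro p hp _
      rw [Nat.support_factorization, Nat.mem_primeFactors] at hp
      have : (1 : ℝ) ≤ p := by exact_mod_cast hp.1.one_lt.le
      have := Real.log_nonneg this
      positivity
  have h4 : (V : ℝ) * (d * Real.log V - Real.log 2) ≤ V * Real.log A +
      d * ∑ p ∈ PSF h V X, (V * (Real.log p / (p - 1)) + Real.log X) := by
    calc (V : ℝ) * (d * Real.log V - Real.log 2) ≤ ∑ t ∈ Ioc V (2 * V), Real.log (FF h t) := h2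
      _ = ∑ t ∈ Ioc V (2 * V), ∑ p ∈ PSF h V X, ((FF h t).factorization p : ℝ) * Real.log p :=
          Finset.sum_congr rfl h3
      _ = ∑ p ∈ PSF h V X, ∑ t ∈ Ioc V (2 * V), ((FF h t).factorization p : ℝ) * Real.log p :=
          Finset.sum_comm
      _ ≤ ∑ p ∈ PSF h V X, (V * ((h.leadingCoeff.natAbs.factorization p : ℝ) * Real.log p) +
            d * (V * (Real.log p / (p - 1)) + Real.log X)) := by
          refine Finset.sum_le_sum fun p hp => ?_
          exact per_prime (mem_PSF.1 hp).2.1 h hh V X hX1 hn0 hX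
      _ = V * ∑ p ∈ PSF h V X, ((h.leadingCoeff.natAbs.factorization p : ℝ) * Real.log p) +
            d * ∑ p ∈ PSF h V X, (V * (Real.log p / (p - 1)) + Real.log X) := by
          rw [Finset.sum_add_distrib, ← Finset.mul_sum, ← Finset.mul_sum]
      _ ≤ _ := by gcongr
  have h5 : Real.log (2 * A) = Real.log 2 + Real.log A := by
    have : (A : ℝ) ≠ 0 := by
      have : (0 : ℝ) < A := by exact_mod_cast hA1
      exact this.ne'
    rw [Real.log_mul (by norm_num) this]
  set S := ∑ p ∈ PSF h V X, (V * (Real.log p / (p - 1)) + Real.log X) with hS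
  have hlA : 0 ≤ Real.log 2 + Real.log A := by
    have h6 := Real.log_nonneg (show (1 : ℝ) ≤ 2 by norm_num)
    have h7 := Real.log_nonneg (show (1 : ℝ) ≤ A by exact_mod_cast hA1)
    linarith
  rw [h5]
  have h6 : (d : ℝ) * (V * Real.log V - V * (Real.log 2 + Real.log A)) ≤ d * S := by
    have h7 : (V : ℝ) * (Real.log 2 + Real.log A) ≤ d * (V * (Real.log 2 + Real.log A)) := by
      have : 0 ≤ (V : ℝ) * (Real.log 2 + Real.log A) := by positivity
      nlinarith
    linarith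
  exact le_of_mul_le_mul_left h6 hd0

/-- bounds for the value -/
theorem val_bounds (h : ℤ[X]) (hd : 1 ≤ h.natDegree) (y : ℝ) (hy1 : 1 ≤ y)
    (hc : ∀ i : ℕ, |(h.coeff i : ℝ)| ≤ y ^ 3) (t : ℕ) (ht : 1 ≤ t)
    (hty : 2 * (h.natDegree : ℝ) * y ^ 3 ≤ t) :
    (t : ℝ) ^ h.natDegree / 2 ≤ (FF h t : ℝ) ∧
      (FF h t : ℝ) ≤ (h.natDegree + 1) * y ^ 3 * (t : ℝ) ^ h.natDegree := by
  have hh : h ≠ 0 := by
    rintro rfl
    simp at hd
  have hlc : h.leadingCoeff ≠ 0 := leadingCoeff_ne_zero.2 hh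
  obtain ⟨d, hdd⟩ : ∃ d, h.natDegree = d + 1 := ⟨h.natDegree - 1, by omega⟩
  have htr : (1 : ℝ) ≤ t := by exact_mod_cast ht
  have ht0 : (0 : ℝ) < t := by linarith
  have hF : (FF h t : ℝ) = |((h.eval (t : ℤ) : ℤ) : ℝ)| := by
    unfold FF
    rw [Nat.cast_natAbs, Int.cast_abs]
  have hev : ((h.eval (t : ℤ) : ℤ) : ℝ) =
      ∑ i ∈ range (d + 1), (h.coeff i : ℝ) * (t : ℝ) ^ i + (h.leadingCoeff : ℝ) * (t : ℝ) ^ (d + 1) := by
    rw [eval_eq_sum_range, hdd, Finset.sum_range_succ]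
    push_cast
    rw [leadingCoeff, hdd]
  have hlow : |∑ i ∈ range (d + 1), (h.coeff i : ℝ) * (t : ℝ) ^ i| ≤
      (d + 1) * (y ^ 3 * (t : ℝ) ^ d) := by
    refine (Finset.abs_sum_le_sum_abs _ _).trans ?_
    have h1 : ∀ i ∈ range (d + 1), |(h.coeff i : ℝ) * (t : ℝ) ^ i| ≤ y ^ 3 * (t : ℝ) ^ d := by
      intro i hi
      rw [abs_mul, abs_of_nonneg (show (0 : ℝ) ≤ (t : ℝ) ^ i by positivity)]
      exact mul_le_mul (hc i) (pow_le_pow_right₀ htr (Nat.lt_succ_iff.1 (Finset.mem_range.1 hi)))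
        (by positivity) (by positivity)
    have h2 := Finset.sum_le_card_nsmul _ _ _ h1
    rw [Finset.card_range, nsmul_eq_mul] at h2
    push_cast at h2
    exact h2
  rw [hF, hev, hdd]
  rw [hdd] at hty
  push_cast at hty ⊢
  have hlc1 : (1 : ℝ) ≤ |(h.leadingCoeff : ℝ)| := by
    have : (1 : ℤ) ≤ |h.leadingCoeff| := Int.one_le_abs hlc
    exact_mod_cast this
  have hlc2 : |(h.leadingCoeff : ℝ)| ≤ y ^ 3 := hc _
  have habs : |(h.leadingCoeff : ℝ) * (t : ℝ) ^ (d + 1)| =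
      |(h.leadingCoeff : ℝ)| * (t : ℝ) ^ (d + 1) := by
    rw [abs_mul, abs_of_nonneg (show (0 : ℝ) ≤ (t : ℝ) ^ (d + 1) by positivity)]
  have hp : (0 : ℝ) < (t : ℝ) ^ d := by positivity
  have hpow : (t : ℝ) ^ (d + 1) = (t : ℝ) ^ d * t := pow_succ _ _
  constructor
  · have h1 : |(h.leadingCoeff : ℝ) * (t : ℝ) ^ (d + 1)| ≤
        |∑ i ∈ range (d + 1), (h.coeff i : ℝ) * (t : ℝ) ^ i + (h.leadingCoeff : ℝ) * (t : ℝ) ^ (d + 1)|
          + |∑ i ∈ range (d + 1), (h.coeff i : ℝ) * (t : ℝ) ^ i| := by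
      have e : (h.leadingCoeff : ℝ) * (t : ℝ) ^ (d + 1) =
        (∑ i ∈ range (d + 1), (h.coeff i : ℝ) * (t : ℝ) ^ i + (h.leadingCoeff : ℝ) * (t : ℝ) ^ (d + 1))
          - ∑ i ∈ range (d + 1), (h.coeff i : ℝ) * (t : ℝ) ^ i := by ring
      calc |(h.leadingCoeff : ℝ) * (t : ℝ) ^ (d + 1)| = |(∑ i ∈ range (d + 1), (h.coeff i : ℝ) * (t : ℝ) ^ i + (h.leadingCoeff : ℝ) * (t : ℝ) ^ (d + 1))
          - ∑ i ∈ range (d + 1), (h.coeff i : ℝ) * (t : ℝ) ^ i| := by rw [← e]
        _ ≤ _ := abs_sub _ _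
    rw [habs] at h1
    have h2 : (t : ℝ) ^ (d + 1) ≤ |(h.leadingCoeff : ℝ)| * (t : ℝ) ^ (d + 1) :=
      le_mul_of_one_le_left (by positivity) hlc1
    have h3 : ((d : ℝ) + 1) * (y ^ 3 * (t : ℝ) ^ d) ≤ (t : ℝ) ^ (d + 1) / 2 := by
      rw [hpow]
      nlinarith
    linarith
  · refine (abs_add_le _ _).trans ?_
    rw [habs]
    have h2 : |(h.leadingCoeff : ℝ)| * (t : ℝ) ^ (d + 1) ≤ y ^ 3 * (t : ℝ) ^ (d + 1) := by gcongr
    have h3 : ((d : ℝ) + 1) * (y ^ 3 * (t : ℝ) ^ d) ≤ (d + 1) * (y ^ 3 * (t : ℝ) ^ (d + 1)) := by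
      have : (t : ℝ) ^ d ≤ (t : ℝ) ^ (d + 1) := pow_le_pow_right₀ htr (Nat.le_succ d)
      gcongr
    calc _ ≤ (d + 1) * (y ^ 3 * (t : ℝ) ^ (d + 1)) + y ^ 3 * (t : ℝ) ^ (d + 1) := by
          linarith
      _ = _ := by ring

theorem mpl : Pool.Agent.Y670.RP.S_MPL := by
  intro D A hD
  obtain ⟨C, hC0, hC⟩ := mertens'
  refine ⟨6 * D + 4, max (100 + 10 * D) (Real.exp (2 + C + |Real.log (2 * A)|)),
    fun y hy h hd1 hdD hA hc => ?_⟩
  have hD1 : (1 : ℝ) ≤ D := by exact_mod_cast hD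
  have hyD : (100 + 10 * D : ℝ) ≤ y := (le_max_left _ _).trans hy
  have hy100 : (100 : ℝ) ≤ y := by linarith
  have hy0 : (0 : ℝ) < y := by linarith
  have hy1 : (1 : ℝ) ≤ y := by linarith
  have hyL : 2 + C + |Real.log (2 * A)| ≤ Real.log y := by
    rw [Real.le_log_iff_exp_le hy0]
    exact (le_max_right _ _).trans hy
  have hAabs := le_abs_self (Real.log (2 * A))
  have hAabs0 := abs_nonneg (Real.log (2 * A))
  set L := Real.log y with hL
  have hL0 : 0 < L := by linarith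
  have hLy : L ≤ y := (Real.log_le_sub_one_of_pos hy0).trans (by linarith)
  set V : ℕ := ⌈y⌉₊ ^ 5 with hV
  set X : ℕ := ⌊y ^ (6 * D + 4)⌋₊ with hX
  have hc1 : y ≤ (⌈y⌉₊ : ℝ) := Nat.le_ceil y
  have hc2 : (⌈y⌉₊ : ℝ) ≤ 2 * y := by
    have := Nat.ceil_lt_add_one hy0.le
    linarith
  have hV1 : y ^ 5 ≤ (V : ℝ) := by
    rw [hV]; push_cast
    gcongr
  have hV2 : (V : ℝ) ≤ 32 * y ^ 5 := by
    rw [hV]; push_cast
    calc (⌈y⌉₊ : ℝ) ^ 5 ≤ (2 * y) ^ 5 := by gcongr
      _ = 32 * y ^ 5 := by ring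
  have hVpos : (0 : ℝ) < V := lt_of_lt_of_le (by positivity) hV1
  have hVn : 1 ≤ V := by exact_mod_cast hVpos
  have hXr : (X : ℝ) ≤ y ^ (6 * D + 4) := Nat.floor_le (by positivity)
  have hX1 : 1 ≤ X := by
    rw [hX, Nat.one_le_floor_iff]
    exact one_le_pow₀ (by linarith)
  have hdDr : (h.natDegree : ℝ) ≤ D := by exact_mod_cast hdD
  have hvb : ∀ t ∈ Ioc V (2 * V), (t : ℝ) ^ h.natDegree / 2 ≤ (FF h t : ℝ) ∧
      (FF h t : ℝ) ≤ (h.natDegree + 1) * y ^ 3 * (t : ℝ) ^ h.natDegree := by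
    intro t ht
    have h1 : (V : ℝ) ≤ t := by exact_mod_cast (Finset.mem_Ioc.1 ht).1.le
    refine val_bounds h hd1 y hy1 hc t (by have := (Finset.mem_Ioc.1 ht).1; omega) ?_
    calc 2 * (h.natDegree : ℝ) * y ^ 3 ≤ y * y ^ 3 := by
          have : 2 * (h.natDegree : ℝ) ≤ y := by linarith
          gcongr
      _ = y ^ 4 := by ring
      _ ≤ y ^ 5 := pow_le_pow_right₀ hy1 (by norm_num)
      _ ≤ t := hV1.trans h1
  have hnX : ∀ t ∈ Ioc V (2 * V), FF h t ≤ X := by
    intro t ht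
    apply Nat.le_floor
    refine (hvb t ht).2.trans ?_
    have h1 : (t : ℝ) ≤ 2 * V := by exact_mod_cast (Finset.mem_Ioc.1 ht).2
    have h2 : (t : ℝ) ≤ y ^ 6 := by
      calc (t : ℝ) ≤ 2 * V := h1
        _ ≤ 64 * y ^ 5 := by linarith
        _ ≤ y * y ^ 5 := by gcongr; linarith
        _ = y ^ 6 := by ring
    calc ((h.natDegree : ℝ) + 1) * y ^ 3 * (t : ℝ) ^ h.natDegree ≤
        y * y ^ 3 * (y ^ 6) ^ h.natDegree := by
          have : (h.natDegree : ℝ) + 1 ≤ y := by linarith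
          gcongr
      _ ≤ y * y ^ 3 * (y ^ 6) ^ D := by
          have : (y ^ 6) ^ h.natDegree ≤ (y ^ 6) ^ D := pow_le_pow_right₀ (one_le_pow₀ hy1) hdD
          gcongr
      _ = y ^ (6 * D + 4) := by ring
  have hlogX : Real.log X ≤ (6 * D + 4) * L := by
    have h1 := Real.log_le_log (by exact_mod_cast hX1) hXr
    rw [Real.log_pow] at h1
    push_cast at h1
    exact h1
  have hlogX0 : 0 ≤ Real.log X := Real.log_nonneg (by exact_mod_cast hX1)
  have hlogXy : Real.log X ≤ y * L := by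
    refine hlogX.trans ?_
    gcongr
    linarith
  have hmain := main_ineqF h hd1 V X A hVn hX1 hA (fun t ht => (hvb t ht).1) hnX
  have hlogV : 5 * L ≤ Real.log V := by
    have h1 := Real.log_le_log (by positivity) hV1
    rw [Real.log_pow] at h1
    exact_mod_cast h1
  set S := PSF h V X with hS
  set S1 := S.filter (fun p : ℕ => (p : ℝ) ≤ y) with hS1
  set S2 := S.filter (fun p : ℕ => ¬ (p : ℝ) ≤ y) with hS2
  have hsplit := Finset.sum_filter_add_sum_filter_not S (fun p : ℕ => (p : ℝ) ≤ y)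
    (fun p : ℕ => (V * (Real.log p / (p - 1)) + Real.log X))
  rw [← hS1, ← hS2] at hsplit
  -- small primes
  have hN1 : 1 ≤ ⌊y⌋₊ := by
    rw [Nat.one_le_floor_iff]; linarith
  have hsub1 : S1 ⊆ (Icc 1 ⌊y⌋₊).filter Nat.Prime := by
    intro p hp
    obtain ⟨h1, h2⟩ := Finset.mem_filter.1 hp
    obtain ⟨h3, h4, -⟩ := mem_PSF.1 h1
    rw [Finset.mem_filter, Finset.mem_Icc]
    exact ⟨⟨h3.1, Nat.le_floor h2⟩, h4⟩
  have hb1 : ∑ p ∈ S1, (V * (Real.log p / (p - 1)) + Real.log X) ≤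
      V * (L + C) + y * (y * L) := by
    have hnn : ∀ p : ℕ, p.Prime → 0 ≤ Real.log p / ((p : ℝ) - 1) := by
      intro p hp
      have hp1 : (1 : ℝ) < p := by exact_mod_cast hp.one_lt
      exact div_nonneg (Real.log_nonneg hp1.le) (by linarith)
    calc ∑ p ∈ S1, (V * (Real.log p / (p - 1)) + Real.log X) ≤
        ∑ p ∈ (Icc 1 ⌊y⌋₊).filter Nat.Prime,
          (V * (Real.log p / (p - 1)) + Real.log X) := by
          refine Finset.sum_le_sum_of_subset_of_nonneg hsub1 ?_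
          intro p hp _
          have := hnn p (Finset.mem_filter.1 hp).2
          positivity
      _ = V * ∑ p ∈ (Icc 1 ⌊y⌋₊).filter Nat.Prime, (Real.log p / (p - 1)) +
          (((Icc 1 ⌊y⌋₊).filter Nat.Prime).card : ℝ) * (Real.log X) := by
          rw [Finset.sum_add_distrib, ← Finset.mul_sum, Finset.sum_const, nsmul_eq_mul]
      _ ≤ V * (L + C) + y * (y * L) := by
          have h1 := hC ⌊y⌋₊ hN1
          have h2 : Real.log (⌊y⌋₊ : ℝ) ≤ L :=
            Real.log_le_log (by exact_mod_cast hN1) (Nat.floor_le hy0.le)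
          have h3 : (((Icc 1 ⌊y⌋₊).filter Nat.Prime).card : ℝ) ≤ y := by
            have h4 : ((Icc 1 ⌊y⌋₊).filter Nat.Prime).card ≤ ⌊y⌋₊ := by
              refine (Finset.card_filter_le _ _).trans ?_
              simp
            calc (((Icc 1 ⌊y⌋₊).filter Nat.Prime).card : ℝ) ≤ (⌊y⌋₊ : ℝ) := by exact_mod_cast h4
              _ ≤ y := Nat.floor_le hy0.le
          have h5 : ∑ p ∈ (Icc 1 ⌊y⌋₊).filter Nat.Prime, (Real.log p / ((p : ℝ) - 1)) ≤ L + C := by
            linarith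
          gcongr
  -- large primes
  have hb2 : ∑ p ∈ S2, (V * (Real.log p / (p - 1)) + Real.log X) ≤
      (S2.card : ℝ) * (3 * V * L / y) := by
    rw [← nsmul_eq_mul]
    refine Finset.sum_le_card_nsmul _ _ _ ?_
    intro p hp
    have h1 : y < (p : ℝ) := not_le.1 (Finset.mem_filter.1 hp).2
    have hp0 : (0 : ℝ) < p := by linarith
    have h2 : Real.log p / p ≤ L / y := by
      have he : Real.exp 1 ≤ y := by
        have := Real.exp_one_lt_d9
        linarith
      exact Real.log_div_self_antitoneOn he (he.trans h1.le) h1.le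
    have hlp : 0 ≤ Real.log p := Real.log_nonneg (by linarith)
    have h3 : Real.log p / (p - 1) ≤ 2 * (L / y) := by
      calc Real.log p / ((p : ℝ) - 1) ≤ Real.log p / ((p : ℝ) / 2) := by
            apply div_le_div_of_nonneg_left hlp (by positivity)
            linarith
        _ = 2 * (Real.log p / p) := by field_simp
        _ ≤ _ := by gcongr
    have h4 : y * L ≤ V * (L / y) := by
      have h5 : y * y ≤ (V : ℝ) := by
        refine le_trans ?_ hV1
        have : y ^ 2 ≤ y ^ 5 := pow_le_pow_right₀ hy1 (by norm_num)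
        nlinarith
      calc y * L = (y * y) * (L / y) := by field_simp
        _ ≤ V * (L / y) := by gcongr
    calc V * (Real.log p / ((p : ℝ) - 1)) + Real.log X ≤
        V * (2 * (L / y)) + y * L := by gcongr
      _ ≤ V * (2 * (L / y)) + V * (L / y) := by linarith
      _ = 3 * V * L / y := by ring
  have hsub2 : S2 ⊆ (Finset.Icc 1 X).filter (fun p : ℕ => p.Prime ∧ y < (p : ℝ) ∧
      ∃ t : ℤ, (p : ℤ) ∣ h.eval t) := by
    intro p hp
    obtain ⟨h1, h2⟩ := Finset.mem_filter.1 hp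
    obtain ⟨h3, h4, t, -, h5⟩ := mem_PSF.1 h1
    rw [Finset.mem_filter, Finset.mem_Icc]
    exact ⟨h3, h4, not_le.1 h2, t, Int.natCast_dvd.2 h5⟩
  have hcard : (S2.card : ℝ) ≤ (((Finset.Icc 1 X).filter (fun p : ℕ => p.Prime ∧ y < (p : ℝ) ∧
      ∃ t : ℤ, (p : ℤ) ∣ h.eval t)).card : ℝ) := by
    exact_mod_cast Finset.card_le_card hsub2
  refine le_trans ?_ hcard
  have h1 : (V * (5 * L) - V * Real.log (2 * A)) ≤
      V * (L + C) + y * (y * L) + (S2.card : ℝ) * (3 * V * L / y) := by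
    have h2 : (V * (5 * L) - V * Real.log (2 * A)) ≤ (V * Real.log V - V * Real.log (2 * A)) := by
      gcongr
    linarith
  have h2 : y * (y * L) ≤ V := by
    refine le_trans ?_ hV1
    calc y * (y * L) ≤ y * (y * y) := by gcongr
      _ = y ^ 3 := by ring
      _ ≤ y ^ 5 := pow_le_pow_right₀ hy1 (by norm_num)
  have h3 : (V : ℝ) * (4 * L - Real.log (2 * A) - 1 - C) ≤ V * ((S2.card : ℝ) * (3 * L / y)) := by
    have h4 : (S2.card : ℝ) * (3 * V * L / y) = V * ((S2.card : ℝ) * (3 * L / y)) := by ring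
    rw [h4] at h1
    nlinarith
  have h4 : 4 * L - Real.log (2 * A) - 1 - C ≤ (S2.card : ℝ) * (3 * L / y) :=
    le_of_mul_le_mul_left h3 hVpos
  have h5 : (4 * L - Real.log (2 * A) - 1 - C) * y ≤ (S2.card : ℝ) * (3 * L) := by
    have h6 : (S2.card : ℝ) * (3 * L / y) * y = (S2.card : ℝ) * (3 * L) := by
      field_simp
    rw [← h6]
    gcongr
  have h6 : 3 * L ≤ 4 * L - Real.log (2 * A) - 1 - C := by linarith
  have h7 : 3 * L * y ≤ (S2.card : ℝ) * (3 * L) := le_trans (by gcongr) h5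
  have h8 : (3 * L) * y ≤ (3 * L) * (S2.card : ℝ) := by linarith
  exact le_of_mul_le_mul_left h8 (by positivity)

end Pool.Agent.Y125.RP
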