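import Pool.Agent.Y670.RP.Stm

set_option autoImplicit false
set_option linter.all false

/-! # The valuations of the values of a polynomial at a finite set of integers -/

namespace Pool.Agent.Y125.RP

open Polynomial Finset

open scoped Classical

/-- Up to at most `d` exceptions the valuation of `h t` is at most the valuation of the leading
coefficient plus the sum of the valuations of the differences with `d` elements. -/
theorem loc {p : ℕ} (hp : p.Prime) : ∀ (d : ℕ) (h : ℤ[X]), h.natDegree ≤ d → ∀ I : Finset ℕ,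
    ∃ T : List ℕ, T.length ≤ d ∧ (∀ s ∈ T, s ∈ I) ∧ ∀ t ∈ I, t ∉ T →
      emultiplicity (p : ℤ) (h.eval (t : ℤ)) ≤ emultiplicity (p : ℤ) (h.coeff d) +
        (T.map (fun s : ℕ => emultiplicity (p : ℤ) ((t : ℤ) - s))).sum := by
  have hpp : Prime (p : ℤ) := Nat.prime_iff_prime_int.mp hp
  intro d
  induction d with
  | zero =>
    intro h hd I
    refine ⟨[], le_rfl, by simp, fun t _ _ => ?_⟩
    have h1 : h = C (h.coeff 0) := eq_C_of_natDegree_le_zero hd
    rw [h1]
    simp
  | succ d ih =>
    intro h hd I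
    rcases I.eq_empty_or_nonempty with rfl | hI
    · exact ⟨[], by simp, by simp, by simp⟩
    obtain ⟨t0, ht0, hmax⟩ := Finset.exists_max_image I
      (fun t : ℕ => emultiplicity (p : ℤ) (h.eval (t : ℤ))) hI
    set h1 := h /ₘ (X - C (t0 : ℤ)) with hh1
    have hm : (X - C (t0 : ℤ)).Monic := monic_X_sub_C _
    have e1 : (X - C (t0 : ℤ)) * h1 = h - C (h.eval (t0 : ℤ)) := by
      have := modByMonic_add_div h (X - C (t0 : ℤ))
      rw [modByMonic_X_sub_C_eq_C_eval] at this
      rw [← this, hh1]
      ring_nf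
      simp
    have hd1 : h1.natDegree ≤ d := by
      rw [hh1, natDegree_divByMonic _ hm, natDegree_X_sub_C]
      omega
    have hc : h1.coeff d = h.coeff (d + 1) := by
      have h2 := congrArg (fun q => coeff q (d + 1)) e1
      simp only [coeff_sub, sub_mul, coeff_X_mul, coeff_C_mul, coeff_C_succ, sub_zero] at h2
      rw [coeff_eq_zero_of_natDegree_lt (lt_of_le_of_lt hd1 (Nat.lt_succ_self d)), mul_zero,
        sub_zero] at h2
      exact h2
    obtain ⟨T, hT1, hT2, hT3⟩ := ih h1 hd1 I
    refine ⟨t0 :: T, by simpa using hT1, ?_, ?_⟩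
    · intro s hs
      rcases List.mem_cons.1 hs with rfl | hs
      · exact ht0
      · exact hT2 s hs
    · intro t ht htT
      have htT' : t ∉ T := fun h => htT (List.mem_cons_of_mem _ h)
      have h3 := hT3 t ht htT'
      have h4 : ((t : ℤ) - t0) * h1.eval (t : ℤ) = h.eval (t : ℤ) + -(h.eval (t0 : ℤ)) := by
        have := congrArg (fun q => eval (t : ℤ) q) e1
        simp only [eval_mul, eval_sub, eval_X, eval_C] at this
        rw [this]; ring
      have h5 : emultiplicity (p : ℤ) (h.eval (t : ℤ)) ≤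
          emultiplicity (p : ℤ) (((t : ℤ) - t0) * h1.eval (t : ℤ)) := by
        rw [h4]
        refine le_trans (le_min le_rfl ?_) min_le_emultiplicity_add
        rw [emultiplicity_neg]
        exact hmax t ht
      rw [emultiplicity_mul hpp] at h5
      rw [List.map_cons, List.sum_cons, ← hc]
      calc emultiplicity (p : ℤ) (h.eval (t : ℤ)) ≤ emultiplicity (p : ℤ) ((t : ℤ) - t0) +
            emultiplicity (p : ℤ) (h1.eval (t : ℤ)) := h5
        _ ≤ emultiplicity (p : ℤ) ((t : ℤ) - t0) + (emultiplicity (p : ℤ) (h1.coeff d) +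
            (T.map (fun s : ℕ => emultiplicity (p : ℤ) ((t : ℤ) - s))).sum) := by gcongr
        _ = _ := by ring

/-- the multiplicity of a nonzero integer -/
theorem em_eq {p : ℕ} (hp : p.Prime) {x : ℤ} (hx : x ≠ 0) :
    emultiplicity (p : ℤ) x = ((x.natAbs.factorization p : ℕ) : ℕ∞) := by
  have hx' : x.natAbs ≠ 0 := Int.natAbs_ne_zero.2 hx
  rw [emultiplicity_eq_coe]
  constructor
  · have h := Nat.ordProj_dvd x.natAbs p
    have h1 : ((p ^ x.natAbs.factorization p : ℕ) : ℤ) ∣ x := Int.natCast_dvd.2 h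
    exact_mod_cast h1
  · intro h
    have h1 : ((p ^ (x.natAbs.factorization p + 1) : ℕ) : ℤ) ∣ x := by exact_mod_cast h
    exact Nat.pow_succ_factorization_not_dvd hx' hp (Int.natCast_dvd.1 h1)

/-- the natural form of `loc` -/
theorem loc_nat {p : ℕ} (hp : p.Prime) (h : ℤ[X]) (hh : h ≠ 0) (I : Finset ℕ)
    (hI : ∀ t ∈ I, h.eval (t : ℤ) ≠ 0) :
    ∃ T : List ℕ, T.length ≤ h.natDegree ∧ (∀ s ∈ T, s ∈ I) ∧ ∀ t ∈ I, t ∉ T →
      (h.eval (t : ℤ)).natAbs.factorization p ≤ h.leadingCoeff.natAbs.factorization p +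
        (T.map (fun s : ℕ => ((t : ℤ) - s).natAbs.factorization p)).sum := by
  obtain ⟨T, h1, h2, h3⟩ := loc hp h.natDegree h le_rfl I
  refine ⟨T, h1, h2, fun t ht htT => ?_⟩
  have h4 := h3 t ht htT
  have h5 : (T.map (fun s : ℕ => emultiplicity (p : ℤ) ((t : ℤ) - s))).sum =
      (((T.map (fun s : ℕ => ((t : ℤ) - s).natAbs.factorization p)).sum : ℕ) : ℕ∞) := by
    have h6 : ∀ T : List ℕ, t ∉ T → (T.map (fun s : ℕ => emultiplicity (p : ℤ) ((t : ℤ) - s))).sum =
      (((T.map (fun s : ℕ => ((t : ℤ) - s).natAbs.factorization p)).sum : ℕ) : ℕ∞) := by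
      intro T
      induction T with
      | nil => intro _; simp
      | cons s T ih =>
        intro hs
        rw [List.mem_cons, not_or] at hs
        rw [List.map_cons, List.map_cons, List.sum_cons, List.sum_cons, ih hs.2, Nat.cast_add,
          em_eq hp (sub_ne_zero.2 (by exact_mod_cast hs.1))]
    exact h6 T htT
  rw [em_eq hp (hI t ht), h5] at h4
  have h6 : h.coeff h.natDegree ≠ 0 := leadingCoeff_ne_zero.2 hh
  rw [em_eq hp h6] at h4
  exact_mod_cast h4

/-- the sum of the valuations of the differences -/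
theorem diff_sum {p : ℕ} (hp : p.Prime) (V s : ℕ) (hs : s ∈ Ioc V (2 * V)) :
    (p - 1) * ∑ t ∈ Ioc V (2 * V), ((t : ℤ) - s).natAbs.factorization p ≤ V := by
  haveI : Fact p.Prime := ⟨hp⟩
  rw [Finset.mem_Ioc] at hs
  have hfac : ∀ n : ℕ, ∑ j ∈ Icc 1 n, j.factorization p = (n.factorial).factorization p := by
    intro n
    induction n with
    | zero => simp
    | succ n ih =>
      rw [Finset.sum_Icc_succ_top (by omega), ih, Nat.factorial_succ,
        Nat.factorization_mul (by omega) n.factorial_ne_zero]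
      simp [add_comm]
  have hbd : ∀ n : ℕ, (p - 1) * ∑ j ∈ Icc 1 n, j.factorization p ≤ n := by
    intro n
    rw [hfac, Nat.factorization_def _ hp, sub_one_mul_padicValNat_factorial]
    omega
  have hsplit : ∑ t ∈ Ioc V (2 * V), ((t : ℤ) - s).natAbs.factorization p =
      ∑ j ∈ Icc 1 (s - V - 1), j.factorization p + ∑ j ∈ Icc 1 (2 * V - s), j.factorization p := by
    have h1 : Ioc V (2 * V) = Ioc V s ∪ Ioc s (2 * V) :=
      (Finset.Ioc_union_Ioc_eq_Ioc hs.1.le hs.2).symm
    rw [h1, Finset.sum_union (Finset.Ioc_disjoint_Ioc_of_le le_rfl)]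
    congr 1
    · have h2 : ∑ t ∈ Ioc V s, ((t : ℤ) - s).natAbs.factorization p =
          ∑ t ∈ Ioo V s, ((t : ℤ) - s).natAbs.factorization p := by
        symm
        refine Finset.sum_subset (fun t ht => ?_) (fun t ht ht' => ?_)
        · rw [Finset.mem_Ioo] at ht; rw [Finset.mem_Ioc]; omega
        · rw [Finset.mem_Ioc] at ht; rw [Finset.mem_Ioo] at ht'
          have : t = s := by omega
          subst this
          simp
      rw [h2]
      refine Finset.sum_nbij' (fun t => s - t) (fun j => s - j) ?_ ?_ ?_ ?_ ?_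
      · intro t ht; rw [Finset.mem_Ioo] at ht; rw [Finset.mem_Icc]; omega
      · intro t ht; rw [Finset.mem_Icc] at ht; rw [Finset.mem_Ioo]; omega
      · intro t ht; rw [Finset.mem_Ioo] at ht; omega
      · intro t ht; rw [Finset.mem_Icc] at ht; omega
      · intro t ht
        rw [Finset.mem_Ioo] at ht
        have : ((t : ℤ) - s).natAbs = s - t := by omega
        rw [this]
    · refine Finset.sum_nbij' (fun t => t - s) (fun j => s + j) ?_ ?_ ?_ ?_ ?_
      · intro t ht; rw [Finset.mem_Ioc] at ht; rw [Finset.mem_Icc]; omega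
      · intro t ht; rw [Finset.mem_Icc] at ht; rw [Finset.mem_Ioc]; omega
      · intro t ht; rw [Finset.mem_Ioc] at ht; omega
      · intro t ht; omega
      · intro t ht
        rw [Finset.mem_Ioc] at ht
        have : ((t : ℤ) - s).natAbs = t - s := by omega
        rw [this]
  rw [hsplit, mul_add]
  have h1 := hbd (s - V - 1)
  have h2 := hbd (2 * V - s)
  omega

end Pool.Agent.Y125.RP
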